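import Pool.Agent.Lib.MP_fbd18f_co.L4.Mai

set_option autoImplicit false

namespace Pool.Agent.Results.MP_fbd18f_co.PolylogBound

/-- A linear bound up to a power of the logarithm for the nonrepetitive chromatic number in terms of
path-width: every finite graph with a path-decomposition of width at most `θ ≥ 1` has a nonrepetitive
vertex colouring with at most `10 ^ 17 * θ * (log₂ (θ + 1)) ^ 4` colours. -/
theorem result :
    ∀ (V : Type) [Fintype V] (G : SimpleGraph V) (θ : ℕ) (B : ℕ → Finset V), 1 ≤ θ →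
      (∀ i, (B i).card ≤ θ + 1) →
      (∀ v, ∃ i, v ∈ B i) →
      (∀ u v, G.Adj u v → ∃ i, u ∈ B i ∧ v ∈ B i) →
      (∀ v i j k, i ≤ j → j ≤ k → v ∈ B i → v ∈ B k → v ∈ B j) →
      ∃ N : ℕ, (N : ℝ) ≤ 10 ^ 17 * θ * (Real.logb 2 (θ + 1)) ^ 4 ∧
        ∃ c : V → Fin N,
          ∀ (k : ℕ) (p : ℕ → V), 1 ≤ k →
            (∀ i j, i < 2 * k → j < 2 * k → p i = p j → i = j) →
            (∀ i, i + 1 < 2 * k → G.Adj (p i) (p (i + 1))) →
            ∃ i, i < k ∧ c (p i) ≠ c (p (i + k)) := by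
  intro V _ G θ B hθ h1 h2 h3 h4
  exact Pool.Agent.FBD4.main V G θ hθ B h1 h2 h3 h4

end Pool.Agent.Results.MP_fbd18f_co.PolylogBound
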